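import Pool.Agent.N661.BR.Stm3
import Pool.Agent.N661.BR.Base
import Pool.Agent.R989.Wvm

/-!
# BR/ERG4: the fourth moment of an ergodic wave
-/

set_option autoImplicit false
open MeasureTheory Filter Topology Complex ProbabilityTheory

namespace Pool.Agent.N141.BRERG4

open Pool.Agent.N661.BR
open Pool.Agent.R989.Asm (Wv)
open Pool.Agent.R989.Erg (sh inv inv_le)

/-- the paths of `MW` -/
def ev (f : MW) (y : ℂ) : ℝ := f y

theorem ev_meas : Measurable ev := measurable_pi_lambda _ fun y => meas_eval y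

theorem wv {μ : Measure MW} [IsProbabilityMeasure μ] (hs : IsStationary μ)
    (hm : Integrable (fun f : MW => f 0 ^ 4) μ) : Wv μ ev where
  meas y := meas_eval y
  smooth f := f.2.1
  eigen f y := f.2.2 y
  stat x := by
    have h1 : (fun (f : MW) (y : ℂ) => ev f (y + x)) = ev ∘ shift x := rfl
    rw [h1, ← Measure.map_map ev_meas (meas_shift x), hs x]
  mom := hm

theorem triv {μ : Measure MW} (he : IsErgodic μ) (B : Set MW)
    (hB : MeasurableSet[(inv (μ.map ev)).comap ev] B) : μ B = 0 ∨ μ B = 1 := by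
  obtain ⟨A, ⟨hA, hAi⟩, rfl⟩ := hB
  refine he _ (ev_meas hA) fun x => ?_
  exact (ev_meas.quasiMeasurePreserving μ).preimage_ae_eq (hAi x)

theorem le_std (μ : Measure MW) : (inv (μ.map ev)).comap ev ≤ (inferInstance : MeasurableSpace MW) := by
  rintro _ ⟨A, ⟨hA, _⟩, rfl⟩
  exact ev_meas hA

theorem ce {μ : Measure MW} [IsProbabilityMeasure μ] (he : IsErgodic μ) {g : MW → ℝ}
    (hg : Integrable g μ) :
    μ[g | (inv (μ.map ev)).comap ev] =ᵐ[μ] fun _ => ∫ f, g f ∂μ := by
  symm
  refine ae_eq_condExp_of_forall_setIntegral_eq (le_std μ) hg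
    (fun s _ _ => integrableOn_const (measure_ne_top _ _)) ?_
    (StronglyMeasurable.aestronglyMeasurable stronglyMeasurable_const)
  intro s hs _
  rcases triv he s hs with h | h
  · rw [setIntegral_measure_zero _ h, setIntegral_measure_zero _ h]
  · have h2 : s =ᵐ[μ] Set.univ := by
      rw [ae_eq_univ]
      exact (prob_compl_eq_zero_iff (le_std μ s hs)).2 h
    rw [setIntegral_congr_set h2, setIntegral_congr_set h2, setIntegral_univ, setIntegral_univ,
      integral_const, probReal_univ, one_smul]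

theorem cov_neg (ν : Measure ℝ) (w : ℂ) : cov ν (0 - w) = cov ν w := by
  unfold cov
  refine integral_congr_ae (Eventually.of_forall fun α => ?_)
  simp only [zero_sub, Complex.neg_re, Complex.neg_im]
  rw [← Real.cos_neg]
  congr 1
  ring

/-- BR/ERG4 -/
theorem ERG4 : Pool.Agent.N661.BR.S_ERG4 := by
  intro μ hμ hs he hm m ν hν hcov
  have H := wv hs hm
  have hx : ∀ w : ℂ, Integrable (fun f : MW => f 0 * f w) μ := by
    intro w
    have h1 := (integrable_map_measure
      (Pool.Agent.R989.Asm.XW_meas w).aestronglyMeasurable ev_meas.aemeasurable).1 (H.xw w)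
    exact h1
  have hc : ∀ w : ℂ, μ[fun f : MW => ev f 0 * ev f w | (inv (μ.map ev)).comap ev] =ᵐ[μ]
      fun f => (fun _ : MW => m) f *
        Pool.Agent.Results.MP_6b977f_mp.FourPointFunctions.cov ((Kernel.const MW ν) f) w := by
    intro w
    refine (ce he (hx w)).trans (Eventually.of_forall fun f => ?_)
    show ∫ f : MW, f 0 * f w ∂μ = m * cov ν w
    rw [hcov 0 w, cov_neg]
  have h4 := (Pool.Agent.R989.Asm.main H (fun _ => m) (Kernel.const MW ν) hc (fun _ => 0)).1
  have h5 := (ce he hm).symm.trans h4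
  have h6 := integral_congr_ae h5
  rw [integral_const, probReal_univ, one_smul] at h6
  rw [h6]
  have h7 : ∀ f : MW, (fun _ : MW => m) f ^ 2 * (3 - 3 / 2 *
      Pool.Agent.Results.MP_6b977f_mp.FourPointFunctions.parallel ((Kernel.const MW ν) f)) =
      m ^ 2 * (3 - 3 / 2 * parallel ν) := fun f => rfl
  rw [integral_congr_ae (Eventually.of_forall h7), integral_const, probReal_univ, one_smul]

end Pool.Agent.N141.BRERG4
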