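import Pool.Agent.N661.BR.Stm3
import Pool.Agent.N278.BRJ0

/-!
# BR/UNIF: the uniform measure of directions
-/

set_option autoImplicit false
open MeasureTheory Filter Topology Complex ProbabilityTheory

namespace Pool.Agent.N141.BRUNIF

open Pool.Agent.N661.BR
open Pool.Agent.Y265.RW (sy rr)

theorem two_pi : (0 : ℝ) < 2 * Real.pi := by positivity

instance prob : IsProbabilityMeasure unif := by
  constructor
  unfold unif
  rw [Measure.smul_apply, Measure.restrict_apply_univ, Real.volume_Ioc, sub_zero, smul_eq_mul,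
    ← ENNReal.ofReal_mul (by positivity), one_div, inv_mul_cancel₀ two_pi.ne', ENNReal.ofReal_one]

theorem unif_null {s : Set ℝ} (hs : volume s = 0) : unif s = 0 := by
  unfold unif
  rw [Measure.smul_apply, smul_eq_mul]
  have h1 : volume.restrict (Set.Ioc 0 (2 * Real.pi)) s = 0 := by
    refine le_antisymm ?_ (zero_le)
    exact (Measure.le_iff'.1 Measure.restrict_le_self s).trans hs.le
  rw [h1, mul_zero]

theorem integral_unif {E : Type*} [NormedAddCommGroup E] [NormedSpace ℝ E] (g : ℝ → E) :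
    ∫ α, g α ∂unif = (1 / (2 * Real.pi)) • ∫ α in (0:ℝ)..(2 * Real.pi), g α := by
  unfold unif
  rw [integral_smul_measure, ENNReal.toReal_ofReal (by positivity),
    intervalIntegral.integral_of_le two_pi.le]

theorem par : parallel unif = 0 := by
  unfold parallel
  rw [measureReal_def]
  have hm : MeasurableSet {p : ℝ × ℝ | Real.sin (p.1 - p.2) = 0} :=
    (isClosed_eq (by fun_prop) continuous_const).measurableSet
  have h0 : (unif.prod unif) {p : ℝ × ℝ | Real.sin (p.1 - p.2) = 0} = 0 := by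
    rw [Measure.measure_prod_null hm]
    refine Eventually.of_forall fun a => ?_
    show unif (Prod.mk a ⁻¹' {p : ℝ × ℝ | Real.sin (p.1 - p.2) = 0}) = 0
    refine unif_null ?_
    refine Set.Countable.measure_zero ?_ _
    refine (Set.countable_range fun n : ℤ => a - n * Real.pi).mono ?_
    intro b hb
    have hb' : Real.sin (a - b) = 0 := hb
    obtain ⟨n, hn⟩ := Real.sin_eq_zero_iff.1 hb'
    exact ⟨n, by simp only; linarith⟩
  rw [h0, ENNReal.toReal_zero]

theorem cf_unif (l : ℤ) (hl : l ≠ 0) : cf unif (2 * l) = 0 := by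
  unfold cf
  rw [integral_unif]
  simp_rw [Pool.Agent.N278.BR.sy_zpow]
  rw [intervalIntegral.integral_const_mul]
  have h1 : ∀ x : ℝ, Complex.exp (-(2 * l * x * Complex.I)) =
      Complex.exp (-(2 * (l : ℂ) * Complex.I) * x) := fun x => by
    congr 1
    ring
  simp_rw [h1]
  have hc : (-(2 * (l : ℂ) * Complex.I)) ≠ 0 :=
    neg_ne_zero.2 (mul_ne_zero (mul_ne_zero (by norm_num) (by exact_mod_cast hl)) Complex.I_ne_zero)
  rw [integral_exp_mul_complex hc]
  have h2 : Complex.exp (-(2 * (l : ℂ) * Complex.I) * ((2 * Real.pi : ℝ) : ℂ)) = 1 := by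
    rw [show -(2 * (l : ℂ) * Complex.I) * ((2 * Real.pi : ℝ) : ℂ) =
      ((-2 * l : ℤ) : ℂ) * (2 * Real.pi * Complex.I) by push_cast; ring]
    exact Complex.exp_int_mul_two_pi_mul_I _
  rw [h2]
  simp

theorem cov_unif (w : ℂ) : cov unif w = J0 ‖w‖ :=
  Pool.Agent.N278.BR.J0cov unif prob cf_unif w

theorem norm_two (c₁ c₂ A B : ℝ) :
    ‖(c₁ : ℂ) * Complex.exp ((A : ℂ) * I) + (c₂ : ℂ) * Complex.exp ((B : ℂ) * I)‖ ^ 2 =
      c₁ ^ 2 + c₂ ^ 2 + 2 * c₁ * c₂ * Real.cos (A - B) := by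
  rw [← Complex.normSq_eq_norm_sq, Complex.normSq_apply]
  simp only [Complex.add_re, Complex.add_im, Complex.re_ofReal_mul, Complex.im_ofReal_mul,
    Complex.exp_ofReal_mul_I_re, Complex.exp_ofReal_mul_I_im]
  rw [Real.cos_sub]
  have hA := Real.sin_sq_add_cos_sq A
  have hB := Real.sin_sq_add_cos_sq B
  linear_combination c₁ ^ 2 * hA + c₂ ^ 2 * hB

theorem sm (c₁ c₂ : ℝ) (w₁ w₂ : ℂ) : SM ![(c₁ : ℂ), (c₂ : ℂ)] ![0, 0] ![w₁, w₂] =
    c₁ ^ 2 + c₂ ^ 2 + 2 * c₁ * c₂ * J0 ‖w₁ - w₂‖ := by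
  rw [← cov_unif]
  unfold SM cov
  rw [integral_unif, smul_eq_mul]
  have h1 : ∀ α : ℝ, ‖∑ i : Fin 2, ![(c₁ : ℂ), (c₂ : ℂ)] i *
      (sy α ^ ((![0, 0] : Fin 2 → ℤ) i) * Complex.exp ((rr (![w₁, w₂] i) α : ℂ) * I))‖ ^ 2 =
      (c₁ ^ 2 + c₂ ^ 2) + 2 * c₁ * c₂ *
        Real.cos ((w₁ - w₂).re * Real.cos α + (w₁ - w₂).im * Real.sin α) := by
    intro α
    rw [Fin.sum_univ_two]
    simp only [Matrix.cons_val_zero, Matrix.cons_val_one, zpow_zero, one_mul]
    rw [norm_two]
    congr 3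
    simp only [rr, Complex.sub_re, Complex.sub_im]
    ring
  simp_rw [h1]
  rw [intervalIntegral.integral_add intervalIntegrable_const
    (Continuous.intervalIntegrable (by fun_prop) _ _), intervalIntegral.integral_const,
    intervalIntegral.integral_const_mul, sub_zero, smul_eq_mul]
  have hp := Real.pi_ne_zero
  field_simp

/-- BR/UNIF -/
theorem UNIF : Pool.Agent.N661.BR.S_UNIF := ⟨prob, par, cov_unif, sm⟩

end Pool.Agent.N141.BRUNIF
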