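import Pool.Agent.N141.BTL2

set_option autoImplicit false

/-!
# Dynamics of a hyperbolic isometry: the second term
-/

noncomputable section

namespace Pool.Agent.N141.BTL1

open Matrix Filter Topology Pool.Agent.N208.BT Pool.Agent.N141.BTL2

variable {n : ℕ} {g g' : M n} {lam : ℂ} {u v : V n}

/-! ### recurrence -/

lemma le_of_strictMono {φ : ℕ → ℕ} (hφ : StrictMono φ) (j d : ℕ) : φ j + d ≤ φ (j + d) := by
  induction d with
  | zero => simp
  | succ d ih =>
    have := hφ (show j + d < j + (d + 1) by omega)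
    omega

lemma recur (huu : hf u u = 0) (hvv : hf v v = 0) (huv : hf u v = 1) {θ : M n} (hθ : IsU θ) {a b : ℂ}
    (ha : a ≠ 0) (hb : b ≠ 0) (hu : θ *ᵥ u = a • u) (hv : θ *ᵥ v = b • v) {w : V n} (wu : hf w u = 0)
    (wv : hf w v = 0) :
    ∃ ψ : ℕ → ℕ, Tendsto ψ atTop atTop ∧ Tendsto (fun j => θ ^ (ψ j) *ᵥ w) atTop (𝓝 w) := by
  obtain ⟨C, hC0, hC⟩ := bound huu hvv huv
  have hpu : ∀ k (x : V n), hf x u = 0 → hf (θ ^ k *ᵥ x) u = 0 := by
    intro k x hx
    have := isU_pow hθ k x u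
    rw [eig_pow hu, hf_smul_right, hx] at this
    exact (mul_eq_zero.1 this).resolve_left (star_ne_zero.2 (pow_ne_zero _ ha))
  have hpv : ∀ k (x : V n), hf x v = 0 → hf (θ ^ k *ᵥ x) v = 0 := by
    intro k x hx
    have := isU_pow hθ k x v
    rw [eig_pow hv, hf_smul_right, hx] at this
    exact (mul_eq_zero.1 this).resolve_left (star_ne_zero.2 (pow_ne_zero _ hb))
  have hbd : ∀ k, θ ^ k *ᵥ w ∈ Metric.closedBall (0 : V n) (Real.sqrt (C * (-(hf w w).re))) := by
    intro k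
    rw [mem_closedBall_zero_iff]
    refine Real.le_sqrt_of_sq_le ?_
    have := hC _ (hpu k w wu) (hpv k w wv)
    rwa [isU_pow hθ k] at this
  obtain ⟨z, -, φ, hφ, hz⟩ := tendsto_subseq_of_bounded Metric.isBounded_closedBall hbd
  have hz2 : Tendsto (fun j => θ ^ (φ (j + j)) *ᵥ w) atTop (𝓝 z) := by
    have h2 : Tendsto (fun j : ℕ => j + j) atTop atTop := tendsto_atTop_mono (fun j => Nat.le_add_left j j) tendsto_id
    exact hz.comp h2
  refine ⟨fun j => φ (j + j) - φ j, ?_, ?_⟩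
  · refine tendsto_atTop_mono (fun j => ?_) tendsto_id
    have := le_of_strictMono hφ j j
    simp only [id]
    omega
  · have hq : ∀ j, ‖θ ^ (φ (j + j) - φ j) *ᵥ w - w‖ ^ 2 ≤
        C * (-(hf (θ ^ (φ (j + j)) *ᵥ w - θ ^ (φ j) *ᵥ w) (θ ^ (φ (j + j)) *ᵥ w - θ ^ (φ j) *ᵥ w)).re) := by
      intro j
      have e1 : θ ^ (φ (j + j)) *ᵥ w - θ ^ (φ j) *ᵥ w = θ ^ (φ j) *ᵥ (θ ^ (φ (j + j) - φ j) *ᵥ w - w) := by
        rw [Matrix.mulVec_sub, Matrix.mulVec_mulVec, ← pow_add]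
        have := le_of_strictMono hφ j j
        congr 3
        omega
      rw [e1, isU_pow hθ]
      refine hC _ ?_ ?_
      · rw [hf_sub_left, hpu _ w wu, wu, sub_zero]
      · rw [hf_sub_left, hpv _ w wv, wv, sub_zero]
    have hd : Tendsto (fun j => θ ^ (φ (j + j)) *ᵥ w - θ ^ (φ j) *ᵥ w) atTop (𝓝 0) := by
      have := hz2.sub hz
      simpa using this
    have hc : Continuous fun q : V n => C * (-(hf q q).re) :=
      continuous_const.mul (Complex.continuous_re.comp (hf_cont continuous_id continuous_id)).neg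
    have hl := (hc.tendsto 0).comp hd
    have h0 : C * (-(hf (0 : V n) 0).re) = 0 := by rw [hf_zero_left]; simp
    rw [h0] at hl
    have hs : Tendsto (fun j => ‖θ ^ (φ (j + j) - φ j) *ᵥ w - w‖ ^ 2) atTop (𝓝 0) :=
      squeeze_zero (fun j => by positivity) hq hl
    have hs2 : Tendsto (fun j => ‖θ ^ (φ (j + j) - φ j) *ᵥ w - w‖) atTop (𝓝 0) := by
      have := (Real.continuous_sqrt.tendsto 0).comp hs
      rw [Real.sqrt_zero] at this
      refine this.congr fun j => ?_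
      simp only [Function.comp]
      exact Real.sqrt_sq (norm_nonneg _)
    exact tendsto_iff_norm_sub_tendsto_zero.2 hs2

/-! ### the second term -/

lemma star_real (r : ℝ) : star (r : ℂ) = r := by rw [Complex.star_def, Complex.conj_ofReal]

lemma bdd_form (y : M n) {a b : ℕ → V n} {D1 D2 : ℝ} (ha : ∀ k, ‖a k‖ ≤ D1) (hb : ∀ k, ‖b k‖ ≤ D2) :
    ∃ D : ℝ, ∀ k, ‖hf (y *ᵥ a k) (b k)‖ ≤ D := by
  have hc : Continuous fun q : V n × V n => hf (y *ᵥ q.1) q.2 := hf_cont (by fun_prop) continuous_snd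
  obtain ⟨D, hD⟩ := ((isCompact_closedBall (0 : V n) D1).prod (isCompact_closedBall (0 : V n) D2)).exists_bound_of_continuousOn
    hc.continuousOn
  refine ⟨D, fun k => hD (a k, b k) ⟨?_, ?_⟩⟩
  · exact mem_closedBall_zero_iff.2 (ha k)
  · exact mem_closedBall_zero_iff.2 (hb k)

/-- **BT/L1.** The second term of the dynamics. -/
theorem main : S_L1 := by
  intro n 𝔯 g g' lam u v H h hsk hst y hy h0
  set b : ℂ := hf (y *ᵥ v) u with hb
  set w : V n := y *ᵥ v - b • v with hw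
  have hl : star lam ≠ 0 := star_ne_zero.2 (lam_ne H)
  have hN0 : (‖lam‖ : ℂ) ≠ 0 := by
    have h1 : (0:ℝ) < ‖lam‖ := by linarith [H.one_lt]
    exact_mod_cast h1.ne'
  have hnn : lam * star lam = (‖lam‖ : ℂ) * ‖lam‖ := by
    rw [Complex.star_def, Complex.mul_conj, Complex.normSq_eq_norm_sq]
    push_cast
    ring
  have wu : hf w u = 0 := by rw [hw, hf_sub_left, hf_smul_left, vu H, hb]; ring
  have wv : hf w v = 0 := by rw [hw, hf_sub_left, hf_smul_left, H.vv, h0]; ring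
  have hyv : y *ᵥ v = w + b • v := by rw [hw]; abel
  -- the rotation
  set μ : ℂ := star lam * (‖lam‖ : ℂ)⁻¹ with hμ
  have hμμ : μ * star μ = 1 := by
    rw [hμ, star_mul', star_star, star_inv₀, star_real]
    field_simp
    rw [mul_comm (star lam), hnn]
    ring
  have hμ0 : μ ≠ 0 := fun hh => by rw [hh, zero_mul] at hμμ; exact zero_ne_one hμμ
  set θ : M n := μ • g with hθ
  have hθU : IsU θ := by
    intro x1 x2
    rw [hθ, Matrix.smul_mulVec, Matrix.smul_mulVec, hf_smul_left, hf_smul_right, H.isU, ← mul_assoc, hμμ, one_mul]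
  have hθu : θ *ᵥ u = (μ * lam) • u := by
    rw [hθ, Matrix.smul_mulVec, H.hu, smul_smul]
  have hθv : θ *ᵥ v = (μ * (star lam)⁻¹) • v := by
    rw [hθ, Matrix.smul_mulVec, H.hv, smul_smul]
  obtain ⟨ψ, hψ, hψw⟩ := recur H.uu H.vv H.uv hθU (mul_ne_zero hμ0 (lam_ne H)) (mul_ne_zero hμ0 (inv_ne_zero hl))
    hθu hθv wu wv
  -- the error term
  have herr : ∀ x1 x2 : V n, Tendsto (fun k : ℕ => (((‖lam‖⁻¹) ^ k : ℝ) : ℂ) * hf ((g ^ k * y * g' ^ k) *ᵥ x1) x2 -
      hf (N u (θ ^ k *ᵥ w) *ᵥ x1) x2) atTop (𝓝 0) := by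
    intro x1 x2
    obtain ⟨D1, hD1⟩ := rk_bdd H h x1
    obtain ⟨D2, hD2⟩ := rk_bdd H h x2
    obtain ⟨D, hD⟩ := bdd_form y hD1 hD2
    set c : ℂ := hf x1 u * b * hf v x2 - star (hf x2 u) * star (b * hf v x1) with hc
    have hkey : ∀ (k : ℕ) (x : V n), hf (y *ᵥ v) (rk g' lam u v x k) =
        hf (g ^ k *ᵥ w) x + b * (star lam)⁻¹ ^ k * hf v x := by
      intro k x
      unfold rk
      rw [hf_sub_right, hf_smul_right, h0, mul_zero, sub_zero,
        ← adj (isU_pow H.isU k) (pow_inv h k), hyv, Matrix.mulVec_add, Matrix.mulVec_smul, eig_pow H.hv,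
        smul_smul, hf_add_left, hf_smul_left]
    have hid : ∀ k : ℕ, (((‖lam‖⁻¹) ^ k : ℝ) : ℂ) * hf ((g ^ k * y * g' ^ k) *ᵥ x1) x2 -
        hf (N u (θ ^ k *ᵥ w) *ᵥ x1) x2 =
        (((‖lam‖⁻¹) ^ k : ℝ) : ℂ) * (hf (y *ᵥ rk g' lam u v x1 k) (rk g' lam u v x2 k) + c) := by
      intro k
      have e1 : θ ^ k *ᵥ w = μ ^ k • (g ^ k *ᵥ w) := by
        rw [hθ, smul_pow, Matrix.smul_mulVec]
      have e2 : hf (N u (θ ^ k *ᵥ w) *ᵥ x1) x2 = hf x1 u * (μ ^ k * hf (g ^ k *ᵥ w) x2) -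
          star (μ ^ k * hf (g ^ k *ᵥ w) x1) * star (hf x2 u) := by
        unfold N
        rw [Matrix.sub_mulVec, R_mulVec, R_mulVec, hf_sub_left, hf_smul_left, hf_smul_left, hf_conj x2 u,
          hf_conj (θ ^ k *ᵥ w) x1, e1, hf_smul_left, hf_smul_left]
      have e3 : hf (y *ᵥ rk g' lam u v x1 k) v = - star (hf (y *ᵥ v) (rk g' lam u v x1 k)) := by
        have := hsk y hy (rk g' lam u v x1 k) v
        rw [hf_conj (y *ᵥ v) (rk g' lam u v x1 k)] at this
        exact eq_neg_of_add_eq_zero_left this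
      have e4 : hf ((g ^ k * y * g' ^ k) *ᵥ x1) x2 =
          hf x1 u * star lam ^ k * hf (y *ᵥ v) (rk g' lam u v x2 k) -
          star (hf x2 u * star lam ^ k) * star (hf (y *ᵥ v) (rk g' lam u v x1 k)) +
          hf (y *ᵥ rk g' lam u v x1 k) (rk g' lam u v x2 k) := by
        rw [coeff H.isU h, rk_eq g' lam u v x1 k, rk_eq g' lam u v x2 k]
        rw [Matrix.mulVec_add, Matrix.mulVec_smul, hf_add_left, hf_add_right, hf_add_right, hf_smul_left,
          hf_smul_left, hf_smul_right, hf_smul_right, h0, e3]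
        ring
      have hp : ((((‖lam‖⁻¹) ^ k : ℝ)) : ℂ) = ((‖lam‖ : ℂ)⁻¹) ^ k := by push_cast; rfl
      have e5 : star lam ^ k * (star lam)⁻¹ ^ k = 1 := by
        rw [← mul_pow, mul_inv_cancel₀ hl, one_pow]
      have e5' : lam ^ k * lam⁻¹ ^ k = 1 := by
        rw [← mul_pow, mul_inv_cancel₀ (lam_ne H), one_pow]
      have e6 : μ ^ k = star lam ^ k * ((‖lam‖ : ℂ)⁻¹) ^ k := by rw [hμ, mul_pow]
      have e7 : star (μ ^ k) = lam ^ k * ((‖lam‖ : ℂ)⁻¹) ^ k := by
        rw [e6, star_mul', star_pow, star_star, star_pow, star_inv₀, star_real]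
      rw [e4, e2, hkey, hkey, hp, hc]
      simp only [star_mul', star_add, star_pow, star_star, star_inv₀] at e7 ⊢
      rw [e7, e6]
      linear_combination (((‖lam‖ : ℂ)⁻¹) ^ k * hf x1 u * b * hf v x2) * e5 -
        (((‖lam‖ : ℂ)⁻¹) ^ k * star (hf x2 u) * star b * star (hf v x1)) * e5'
    simp_rw [hid]
    refine squeeze_zero_norm (a := fun k => ‖lam‖⁻¹ ^ k * (D + ‖c‖)) ?_ ?_
    · intro k
      rw [norm_mul, Complex.norm_real, Real.norm_of_nonneg (by positivity)]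
      exact mul_le_mul_of_nonneg_left ((norm_add_le _ _).trans (add_le_add (hD k) le_rfl)) (by positivity)
    · simpa using (inv_pow_tendsto H).mul_const (D + ‖c‖)
  -- the limit
  have hlim : Tendsto (fun j : ℕ => ((‖lam‖⁻¹) ^ (ψ j) : ℝ) • (g ^ (ψ j) * y * g' ^ (ψ j))) atTop
      (𝓝 (N u w)) := by
    refine mat_tendsto fun x1 x2 => ?_
    have l1 := (herr x1 x2).comp hψ
    have hN : ∀ w' : V n, hf (N u w' *ᵥ x1) x2 = hf x1 u * hf w' x2 - hf x1 w' * hf u x2 := by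
      intro w'
      unfold N
      rw [Matrix.sub_mulVec, R_mulVec, R_mulVec, hf_sub_left, hf_smul_left, hf_smul_left]
    have hc : Continuous fun w' : V n => hf (N u w' *ᵥ x1) x2 := by
      simp_rw [hN]
      exact (continuous_const.mul (hf_cont continuous_id continuous_const)).sub
        ((hf_cont continuous_const continuous_id).mul continuous_const)
    have l2 := (hc.tendsto w).comp hψw
    have l3 := l1.add l2
    rw [zero_add] at l3
    refine l3.congr fun j => ?_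
    simp only [Function.comp, sub_add_cancel]
    have e2 : (((‖lam‖⁻¹) ^ (ψ j) : ℝ) • (g ^ (ψ j) * y * g' ^ (ψ j))) *ᵥ x1 =
        (((‖lam‖⁻¹) ^ (ψ j) : ℝ) : ℂ) • ((g ^ (ψ j) * y * g' ^ (ψ j)) *ᵥ x1) := by
      rw [Matrix.smul_mulVec]
      rfl
    rw [e2, hf_smul_left]
  refine (closed 𝔯).mem_of_tendsto hlim (Eventually.of_forall fun k => ?_)
  exact 𝔯.smul_mem _ (conj_mem hst hy _)

end Pool.Agent.N141.BTL1
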