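import Pool.Agent.N208.BT.Stm

set_option autoImplicit false

/-!
# Dynamics of a hyperbolic isometry: the leading term
-/

noncomputable section

namespace Pool.Agent.N141.BTL2

open Matrix Filter Topology Pool.Agent.N208.BT

variable {n : ℕ}

/-! ### the form -/

lemma hf_add_left (x y z : V n) : hf (x + y) z = hf x z + hf y z := by
  unfold hf
  simp only [Pi.add_apply, add_mul, Finset.sum_add_distrib]
  ring

lemma hf_smul_left (c : ℂ) (x z : V n) : hf (c • x) z = c * hf x z := by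
  unfold hf
  simp only [Pi.smul_apply, smul_eq_mul, mul_sub, Finset.mul_sum, mul_assoc]

lemma hf_conj (x y : V n) : hf y x = star (hf x y) := by
  unfold hf
  simp only [star_sub, star_sum, star_mul', star_star]
  congr 1
  · ring
  · exact Finset.sum_congr rfl fun i _ => by ring

lemma hf_add_right (x y z : V n) : hf z (x + y) = hf z x + hf z y := by
  rw [hf_conj (x + y) z, hf_add_left, star_add, ← hf_conj, ← hf_conj]

lemma hf_smul_right (c : ℂ) (x z : V n) : hf z (c • x) = star c * hf z x := by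
  rw [hf_conj (c • x) z, hf_smul_left, star_mul', ← hf_conj]

lemma hf_neg_left (x z : V n) : hf (-x) z = - hf x z := by
  have := hf_smul_left (-1) x z
  simpa using this

lemma hf_neg_right (x z : V n) : hf z (-x) = - hf z x := by
  have := hf_smul_right (-1) x z
  simpa using this

lemma hf_sub_left (x y z : V n) : hf (x - y) z = hf x z - hf y z := by
  rw [sub_eq_add_neg, hf_add_left, hf_neg_left, sub_eq_add_neg]

lemma hf_sub_right (x y z : V n) : hf z (x - y) = hf z x - hf z y := by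
  rw [sub_eq_add_neg, hf_add_right, hf_neg_right, sub_eq_add_neg]

lemma hf_zero_right (x : V n) : hf x 0 = 0 := by
  have := hf_smul_right 0 0 x
  simpa using this

lemma hf_zero_left (x : V n) : hf 0 x = 0 := by
  have := hf_smul_left 0 0 x
  simpa using this

lemma hf_single_zero (x : V n) : hf x (Pi.single 0 1) = x 0 := by
  unfold hf
  simp

lemma hf_single_succ (x : V n) (i : Fin n) : hf x (Pi.single i.succ 1) = - x i.succ := by
  unfold hf
  rw [Pi.single_eq_of_ne (Fin.succ_ne_zero i).symm, Finset.sum_eq_single i]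
  · simp
  · intro b _ hb
    rw [Pi.single_eq_of_ne (fun h => hb (Fin.succ_injective _ h))]
    simp
  · intro h
    exact absurd (Finset.mem_univ _) h

lemma hf_cont {X : Type*} [TopologicalSpace X] {a b : X → V n} (ha : Continuous a) (hb : Continuous b) :
    Continuous fun q => hf (a q) (b q) := by
  unfold hf
  have h1 : ∀ i, Continuous fun q => a q i := fun i => (continuous_apply i).comp ha
  have h2 : ∀ i, Continuous fun q => b q i := fun i => (continuous_apply i).comp hb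
  refine ((h1 0).mul (h2 0).star).sub ?_
  exact continuous_finsetSum _ fun i _ => (h1 _).mul (h2 _).star

lemma R_mulVec (a b x : V n) : R a b *ᵥ x = hf x b • a := by
  have hx : x = ∑ j, x j • (Pi.single j 1 : V n) := by
    ext i
    simp [Finset.sum_apply, Pi.single_apply]
  have hs : ∀ s : Finset (Fin (n + 1)), hf (∑ j ∈ s, x j • (Pi.single j 1 : V n)) b =
      ∑ j ∈ s, x j * hf (Pi.single j 1) b := by
    intro s
    induction s using Finset.induction_on with
    | empty => simp [hf_zero_left]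
    | insert j s hj ih => rw [Finset.sum_insert hj, Finset.sum_insert hj, hf_add_left, hf_smul_left, ih]
  ext i
  have e : hf x b = ∑ j, x j * hf (Pi.single j 1) b := by
    conv_lhs => rw [hx]
    exact hs _
  rw [Pi.smul_apply, e, smul_eq_mul, Finset.sum_mul]
  simp only [Matrix.mulVec, dotProduct, R, Matrix.of_apply]
  exact Finset.sum_congr rfl fun j _ => by ring

/-! ### convergence of operators -/

lemma entry (A : M n) (i j : Fin (n + 1)) : A i j = (A *ᵥ (Pi.single j 1 : V n)) i := by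
  simp

lemma mat_tendsto {F : ℕ → M n} {A : M n} {l : Filter ℕ}
    (h : ∀ x1 x2 : V n, Tendsto (fun k => hf (F k *ᵥ x1) x2) l (𝓝 (hf (A *ᵥ x1) x2))) :
    Tendsto F l (𝓝 A) := by
  refine tendsto_pi_nhds.2 fun i => tendsto_pi_nhds.2 fun j => ?_
  have hj : ∀ B : M n, B i j = (B *ᵥ (Pi.single j 1 : V n)) i := fun B => entry B i j
  simp_rw [hj]
  rcases Fin.eq_zero_or_eq_succ i with rfl | ⟨i, rfl⟩
  · have := h (Pi.single j 1) (Pi.single 0 1)
    simp_rw [hf_single_zero] at this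
    exact this
  · have := (h (Pi.single j 1) (Pi.single i.succ 1)).neg
    simp_rw [hf_single_succ, neg_neg] at this
    exact this

lemma closed (𝔯 : Submodule ℝ (M n)) : IsClosed (𝔯 : Set (M n)) :=
  Submodule.closed_of_finiteDimensional 𝔯

/-! ### the bound on the orthogonal complement of `u`, `v` -/

lemma re_self (w : V n) : (hf w w).re = ‖w 0‖ ^ 2 - ∑ i : Fin n, ‖w i.succ‖ ^ 2 := by
  have e : ∀ z : ℂ, (z * star z).re = ‖z‖ ^ 2 := by
    intro z
    rw [Complex.star_def, Complex.mul_conj, Complex.ofReal_re, Complex.normSq_eq_norm_sq]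
  unfold hf
  rw [Complex.sub_re, Complex.re_sum, e]
  simp_rw [e]

lemma bound {u v : V n} (huu : hf u u = 0) (hvv : hf v v = 0) (huv : hf u v = 1) :
    ∃ C : ℝ, 0 ≤ C ∧ ∀ w : V n, hf w u = 0 → hf w v = 0 → ‖w‖ ^ 2 ≤ C * (-(hf w w).re) := by
  set p : V n := u + v with hp
  have hpp : (hf p p).re = 2 := by
    have hvu : hf v u = 1 := by rw [hf_conj u v, huv, star_one]
    rw [hp, hf_add_left, hf_add_right, hf_add_right, huu, hvv, huv, hvu]
    norm_num
  rw [re_self] at hpp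
  refine ⟨‖p 0‖ ^ 2 / 2, by positivity, fun w hu hv => ?_⟩
  set S : ℝ := ∑ i : Fin n, ‖w i.succ‖ ^ 2 with hS
  set P : ℝ := ∑ i : Fin n, ‖p i.succ‖ ^ 2 with hP
  have hS0 : 0 ≤ S := Finset.sum_nonneg fun i _ => by positivity
  have hwp : hf w p = 0 := by rw [hp, hf_add_right, hu, hv, add_zero]
  have h1 : w 0 * star (p 0) = ∑ i : Fin n, w i.succ * star (p i.succ) := by
    have := hwp
    unfold hf at this
    exact sub_eq_zero.1 this
  have h2 : ‖w 0‖ * ‖p 0‖ ≤ ∑ i : Fin n, ‖w i.succ‖ * ‖p i.succ‖ := by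
    have h3 := congrArg norm h1
    rw [norm_mul, norm_star] at h3
    rw [h3]
    refine (norm_sum_le _ _).trans (le_of_eq ?_)
    exact Finset.sum_congr rfl fun i _ => by rw [norm_mul, norm_star]
  have h3 : (‖w 0‖ * ‖p 0‖) ^ 2 ≤ S * P := by
    refine (pow_le_pow_left₀ (by positivity) h2 2).trans ?_
    exact Finset.sum_mul_sq_le_sq_mul_sq _ _ _
  have hP' : P = ‖p 0‖ ^ 2 - 2 := by linarith
  rw [mul_pow, hP'] at h3
  have hP0 : 0 ≤ P := Finset.sum_nonneg fun i _ => by positivity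
  have h4 : S ≤ ‖p 0‖ ^ 2 / 2 * (S - ‖w 0‖ ^ 2) := by nlinarith
  have h5 : ‖w 0‖ ^ 2 ≤ S := by
    by_contra hcon
    push Not at hcon
    nlinarith [sq_nonneg ‖p 0‖]
  rw [re_self]
  have h6 : -(‖w 0‖ ^ 2 - S) = S - ‖w 0‖ ^ 2 := by ring
  rw [h6]
  have h7 : ∀ i, ‖w i‖ ^ 2 ≤ S := by
    intro i
    rcases Fin.eq_zero_or_eq_succ i with rfl | ⟨i, rfl⟩
    · exact h5
    · exact Finset.single_le_sum (f := fun i : Fin n => ‖w i.succ‖ ^ 2) (fun i _ => by positivity)
        (Finset.mem_univ i)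
  have h8 : ‖w‖ ≤ Real.sqrt S := by
    rw [pi_norm_le_iff_of_nonneg (Real.sqrt_nonneg _)]
    intro i
    exact Real.le_sqrt_of_sq_le (h7 i)
  calc ‖w‖ ^ 2 ≤ (Real.sqrt S) ^ 2 := pow_le_pow_left₀ (norm_nonneg _) h8 2
    _ = S := Real.sq_sqrt hS0
    _ ≤ _ := h4

/-! ### isometries -/

lemma gg' {g g' : M n} (h : g * g' = 1) (x : V n) : g *ᵥ (g' *ᵥ x) = x := by
  rw [Matrix.mulVec_mulVec, h, Matrix.one_mulVec]

lemma adj {g g' : M n} (hg : IsU g) (h : g * g' = 1) (x y : V n) : hf (g *ᵥ x) y = hf x (g' *ᵥ y) := by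
  have := hg x (g' *ᵥ y)
  rwa [gg' h] at this

lemma isU_inv {g g' : M n} (hg : IsU g) (h : g * g' = 1) : IsU g' := by
  intro x y
  have := hg (g' *ᵥ x) (g' *ᵥ y)
  rw [gg' h, gg' h] at this
  exact this.symm

lemma isU_pow {g : M n} (hg : IsU g) (k : ℕ) : IsU (g ^ k) := by
  induction k with
  | zero => intro x y; simp
  | succ k ih =>
    intro x y
    rw [pow_succ', ← Matrix.mulVec_mulVec, ← Matrix.mulVec_mulVec, hg, ih]

lemma pow_inv {g g' : M n} (h : g * g' = 1) (k : ℕ) : g ^ k * g' ^ k = 1 := by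
  induction k with
  | zero => simp
  | succ k ih =>
    rw [pow_succ, pow_succ', Matrix.mul_assoc, ← Matrix.mul_assoc g, h, Matrix.one_mul, ih]

lemma eig_pow {g : M n} {u : V n} {c : ℂ} (h : g *ᵥ u = c • u) (k : ℕ) : (g ^ k) *ᵥ u = (c ^ k) • u := by
  induction k with
  | zero => simp
  | succ k ih => rw [pow_succ, ← Matrix.mulVec_mulVec, h, Matrix.mulVec_smul, ih, smul_smul, pow_succ']

lemma conj_mem {𝔯 : Submodule ℝ (M n)} {g g' : M n} (h : ∀ y ∈ 𝔯, g * y * g' ∈ 𝔯) {y : M n} (hy : y ∈ 𝔯)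
    (k : ℕ) : g ^ k * y * g' ^ k ∈ 𝔯 := by
  induction k with
  | zero => simpa using hy
  | succ k ih =>
    have := h _ ih
    rw [pow_succ', pow_succ]
    convert this using 1
    simp only [Matrix.mul_assoc]

/-- the matrix coefficients -/
lemma coeff {g g' : M n} (hg : IsU g) (h : g * g' = 1) (y : M n) (k : ℕ) (x1 x2 : V n) :
    hf ((g ^ k * y * g' ^ k) *ᵥ x1) x2 = hf (y *ᵥ (g' ^ k *ᵥ x1)) (g' ^ k *ᵥ x2) := by
  rw [← Matrix.mulVec_mulVec, ← Matrix.mulVec_mulVec]
  exact adj (isU_pow hg k) (pow_inv h k) _ _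

section hyp

variable {g g' : M n} {lam : ℂ} {u v : V n}

lemma lam_ne (H : Hyp g lam u v) : lam ≠ 0 := by
  intro h
  have := H.one_lt
  rw [h, norm_zero] at this
  linarith

lemma vu (H : Hyp g lam u v) : hf v u = 1 := by rw [hf_conj u v, H.uv, star_one]

lemma g'u (H : Hyp g lam u v) (h : g * g' = 1) : g' *ᵥ u = lam⁻¹ • u := by
  have h' : g' * g = 1 := mul_eq_one_comm.1 h
  have e := gg' h' u
  rw [H.hu, Matrix.mulVec_smul] at e
  calc g' *ᵥ u = lam⁻¹ • (lam • g' *ᵥ u) := by rw [smul_smul, inv_mul_cancel₀ (lam_ne H), one_smul]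
    _ = lam⁻¹ • u := by rw [e]

lemma g'v (H : Hyp g lam u v) (h : g * g' = 1) : g' *ᵥ v = star lam • v := by
  have h' : g' * g = 1 := mul_eq_one_comm.1 h
  have hl : star lam ≠ 0 := star_ne_zero.2 (lam_ne H)
  have e := gg' h' v
  rw [H.hv, Matrix.mulVec_smul] at e
  calc g' *ᵥ v = star lam • ((star lam)⁻¹ • g' *ᵥ v) := by rw [smul_smul, mul_inv_cancel₀ hl, one_smul]
    _ = star lam • v := by rw [e]

/-- the remainder -/
def rk (g' : M n) (lam : ℂ) (u v x : V n) (k : ℕ) : V n := g' ^ k *ᵥ x - (hf x u * star lam ^ k) • v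

lemma rk_eq (g' : M n) (lam : ℂ) (u v x : V n) (k : ℕ) :
    g' ^ k *ᵥ x = (hf x u * star lam ^ k) • v + rk g' lam u v x k := by
  unfold rk
  abel

lemma rk_bdd (H : Hyp g lam u v) (h : g * g' = 1) (x : V n) : ∃ D : ℝ, ∀ k, ‖rk g' lam u v x k‖ ≤ D := by
  obtain ⟨C, hC0, hC⟩ := bound H.uu H.vv H.uv
  set x' : V n := x - hf x v • u - hf x u • v with hx'
  have hU := isU_inv H.isU h
  have xu : hf x' u = 0 := by
    rw [hx', hf_sub_left, hf_sub_left, hf_smul_left, hf_smul_left, H.uu, vu H]; ring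
  have xv : hf x' v = 0 := by
    rw [hx', hf_sub_left, hf_sub_left, hf_smul_left, hf_smul_left, H.vv, H.uv]; ring
  have hk : ∀ k, rk g' lam u v x k = (hf x v * lam⁻¹ ^ k) • u + g' ^ k *ᵥ x' := by
    intro k
    unfold rk
    rw [hx', Matrix.mulVec_sub, Matrix.mulVec_sub, Matrix.mulVec_smul, Matrix.mulVec_smul, eig_pow (g'u H h),
      eig_pow (g'v H h), smul_smul, smul_smul]
    abel
  have hl : ‖lam⁻¹‖ ≤ 1 := by
    rw [norm_inv]
    exact inv_le_one_of_one_le₀ H.one_lt.le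
  have hb : ∀ k, ‖g' ^ k *ᵥ x'‖ ≤ Real.sqrt (C * (-(hf x' x').re)) := by
    intro k
    refine Real.le_sqrt_of_sq_le ?_
    have hUk := isU_pow hU k
    have e1 : hf (g' ^ k *ᵥ x') u = 0 := by
      have := hUk x' u
      rw [eig_pow (g'u H h), hf_smul_right, xu] at this
      have hne : star (lam⁻¹ ^ k) ≠ 0 := star_ne_zero.2 (pow_ne_zero _ (inv_ne_zero (lam_ne H)))
      exact (mul_eq_zero.1 this).resolve_left hne
    have e2 : hf (g' ^ k *ᵥ x') v = 0 := by
      have := hUk x' v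
      rw [eig_pow (g'v H h), hf_smul_right, xv] at this
      have hne : star (star lam ^ k) ≠ 0 := star_ne_zero.2 (pow_ne_zero _ (star_ne_zero.2 (lam_ne H)))
      exact (mul_eq_zero.1 this).resolve_left hne
    have := hC _ e1 e2
    rwa [hUk] at this
  refine ⟨‖hf x v‖ * ‖u‖ + Real.sqrt (C * (-(hf x' x').re)), fun k => ?_⟩
  rw [hk]
  refine (norm_add_le _ _).trans (add_le_add ?_ (hb k))
  rw [norm_smul, norm_mul, norm_pow]
  have h1 : ‖lam⁻¹‖ ^ k ≤ 1 := pow_le_one₀ (norm_nonneg _) hl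
  have h2 : ‖hf x v‖ * ‖lam⁻¹‖ ^ k ≤ ‖hf x v‖ := mul_le_of_le_one_right (norm_nonneg _) h1
  exact mul_le_mul_of_nonneg_right h2 (norm_nonneg _)

lemma inv_pow_tendsto (H : Hyp g lam u v) : Tendsto (fun k : ℕ => ‖lam‖⁻¹ ^ k) atTop (𝓝 0) := by
  refine tendsto_pow_atTop_nhds_zero_of_lt_one (by positivity) ?_
  exact inv_lt_one_of_one_lt₀ H.one_lt

/-- the leading term -/
lemma lead (H : Hyp g lam u v) (h : g * g' = 1) (x : V n) :
    Tendsto (fun k : ℕ => ((star lam)⁻¹ ^ k) • (g' ^ k *ᵥ x)) atTop (𝓝 (hf x u • v)) := by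
  obtain ⟨D, hD⟩ := rk_bdd H h x
  have hl : star lam ≠ 0 := star_ne_zero.2 (lam_ne H)
  have e : ∀ k : ℕ, ((star lam)⁻¹ ^ k) • (g' ^ k *ᵥ x) = hf x u • v + ((star lam)⁻¹ ^ k) • rk g' lam u v x k := by
    intro k
    rw [rk_eq g' lam u v x k, smul_add, smul_smul]
    congr 2
    rw [inv_pow]
    field_simp
  simp_rw [e]
  have h0 : Tendsto (fun k : ℕ => ((star lam)⁻¹ ^ k) • rk g' lam u v x k) atTop (𝓝 0) := by
    refine squeeze_zero_norm (a := fun k => ‖lam‖⁻¹ ^ k * D) ?_ ?_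
    · intro k
      rw [norm_smul, norm_pow, norm_inv, norm_star]
      exact mul_le_mul_of_nonneg_left (hD k) (by positivity)
    · simpa using (inv_pow_tendsto H).mul_const D
  simpa using h0.const_add (hf x u • v)

end hyp

/-- **BT/L2.** The leading term of the dynamics. -/
theorem main : S_L2 := by
  intro n 𝔯 g g' lam u v H h hsk hst y hy hne
  -- the limit
  have hlim : Tendsto (fun k : ℕ => ((‖lam‖⁻¹ ^ 2) ^ k : ℝ) • (g ^ k * y * g' ^ k)) atTop
      (𝓝 (hf (y *ᵥ v) v • R u u)) := by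
    refine mat_tendsto fun x1 x2 => ?_
    have l1 := lead H h x1
    have l2 := lead H h x2
    have hc : Continuous fun q : V n × V n => hf (y *ᵥ q.1) q.2 :=
      hf_cont (by fun_prop) continuous_snd
    have l3 := (hc.tendsto (hf x1 u • v, hf x2 u • v)).comp (l1.prodMk_nhds l2)
    have e : hf ((hf (y *ᵥ v) v • R u u) *ᵥ x1) x2 = hf (y *ᵥ (hf x1 u • v)) (hf x2 u • v) := by
      rw [Matrix.smul_mulVec, R_mulVec, hf_smul_left, hf_smul_left, Matrix.mulVec_smul, hf_smul_left,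
        hf_smul_right, hf_conj x2 u]
      ring
    rw [e]
    refine l3.congr fun k => ?_
    simp only [Function.comp]
    rw [Matrix.mulVec_smul, hf_smul_left, hf_smul_right, ← coeff H.isU h y k x1 x2]
    have e2 : (((‖lam‖⁻¹ ^ 2) ^ k : ℝ) • (g ^ k * y * g' ^ k)) *ᵥ x1 =
        (((‖lam‖⁻¹ ^ 2) ^ k : ℝ) : ℂ) • ((g ^ k * y * g' ^ k) *ᵥ x1) := by
      rw [Matrix.smul_mulVec]
      rfl
    rw [e2, hf_smul_left, ← mul_assoc]
    congr 1
    have e3 : star ((star lam)⁻¹ ^ k) = lam⁻¹ ^ k := by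
      rw [star_pow, star_inv₀, star_star]
    rw [e3, ← mul_pow, Complex.ofReal_pow]
    congr 1
    rw [← mul_inv, Complex.star_def, ← Complex.normSq_eq_conj_mul_self, Complex.normSq_eq_norm_sq]
    push_cast
    rw [inv_pow]
  have hmem : hf (y *ᵥ v) v • R u u ∈ 𝔯 := by
    refine (closed 𝔯).mem_of_tendsto hlim (Eventually.of_forall fun k => ?_)
    exact 𝔯.smul_mem _ (conj_mem hst hy k)
  -- the coefficient is imaginary
  have hre : (hf (y *ᵥ v) v).re = 0 := by
    have h1 := hsk y hy v v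
    rw [hf_conj (y *ᵥ v) v] at h1
    have h2 := congrArg Complex.re h1
    rw [Complex.add_re, Complex.star_def, Complex.conj_re, Complex.zero_re] at h2
    linarith
  set s : ℝ := (hf (y *ᵥ v) v).im with hs
  have he : hf (y *ᵥ v) v = (s : ℂ) * Complex.I := by
    apply Complex.ext <;> simp [hre, hs]
  have hs0 : s ≠ 0 := by
    intro h0
    rw [h0] at he
    exact hne (by rw [he]; simp)
  have := 𝔯.smul_mem (s⁻¹) hmem
  convert this using 1
  rw [he]
  ext i j
  simp only [Matrix.smul_apply, smul_eq_mul, Complex.real_smul]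
  have hsc : (s : ℂ) ≠ 0 := by exact_mod_cast hs0
  push_cast
  field_simp

end Pool.Agent.N141.BTL2
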