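import Mathlib
import Pool.Agent.N604.MW.Stm

set_option autoImplicit false

/-!
# Project MW: the Fourier series of `e (α ⌊x⌋)` with the weight `sin ^ 2 (π x)`
-/

namespace Pool.Agent.N141.MWF

open Finset MeasureTheory Filter Pool.Agent.N604.MW

/-! ### the exponential -/

lemma e_add (x y : ℝ) : e (x + y) = e x * e y := by
  unfold e
  rw [← Complex.exp_add]
  congr 1
  push_cast
  ring

lemma e_int (n : ℤ) : e (n : ℝ) = 1 := by
  unfold e
  rw [Complex.exp_eq_one_iff]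
  exact ⟨n, by push_cast; ring⟩

lemma norm_e (x : ℝ) : ‖e x‖ = 1 := by
  unfold e
  have : (2 * Real.pi * x * Complex.I : ℂ) = ((2 * Real.pi * x : ℝ) : ℂ) * Complex.I := by push_cast; ring
  rw [this, Complex.norm_exp_ofReal_mul_I]

lemma e_cont : Continuous e := by
  unfold e
  fun_prop

lemma int_e {γ : ℝ} (hγ : γ ≠ 0) : ∫ u in (0:ℝ)..1, e (γ * u) = (e γ - 1) / (2 * Real.pi * Complex.I * γ) := by
  have hc : (2 * Real.pi * Complex.I * γ : ℂ) ≠ 0 := by
    have h1 : (Real.pi : ℂ) ≠ 0 := by exact_mod_cast Real.pi_ne_zero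
    have h2 : (γ : ℂ) ≠ 0 := by exact_mod_cast hγ
    have h3 := Complex.I_ne_zero
    simp [h1, h2]
  have h := integral_exp_mul_complex (a := 0) (b := 1) hc
  have e1 : ∀ u : ℝ, e (γ * u) = Complex.exp (2 * Real.pi * Complex.I * γ * u) := by
    intro u
    unfold e
    congr 1
    push_cast
    ring
  simp_rw [e1]
  rw [h]
  unfold e
  congr 1
  simp
  congr 1
  ring

/-- the coefficients -/
noncomputable def cc (β : ℝ) : ℂ := ∫ u in (0:ℝ)..1, ((Real.sin (Real.pi * u) ^ 2 : ℝ) : ℂ) * e (-(β * u))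

lemma sin_sq_eq (u : ℝ) : ((Real.sin (Real.pi * u) ^ 2 : ℝ) : ℂ) = 1 / 2 - e u / 4 - e (-u) / 4 := by
  have h1 : Real.sin (Real.pi * u) ^ 2 = 1 / 2 - Real.cos (2 * (Real.pi * u)) / 2 := by
    rw [Real.cos_two_mul, Real.sin_sq]
    ring
  have h2 : (Real.cos (2 * (Real.pi * u)) : ℂ) = (e u + e (-u)) / 2 := by
    rw [Complex.ofReal_cos, Complex.cos]
    unfold e
    congr 1
    congr 1
    · congr 1
      push_cast
      ring
    · congr 1
      push_cast
      ring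
  rw [h1]
  push_cast
  push_cast at h2
  rw [h2]
  ring

lemma cc_eq {β : ℝ} (h0 : β ≠ 0) (h1 : β ≠ 1) (h2 : β ≠ -1) :
    cc β = (e (-β) - 1) / (2 * Real.pi * Complex.I) * (1 / (2 * β * (β ^ 2 - 1))) := by
  have i1 : ∀ γ : ℝ, IntervalIntegrable (fun u : ℝ => e (γ * u)) volume 0 1 := fun γ =>
    (e_cont.comp (continuous_const.mul continuous_id)).intervalIntegrable _ _
  have e1 : ∀ u : ℝ, ((Real.sin (Real.pi * u) ^ 2 : ℝ) : ℂ) * e (-(β * u)) =
      1 / 2 * e ((-β) * u) - 1 / 4 * e ((1 - β) * u) - 1 / 4 * e ((-1 - β) * u) := by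
    intro u
    rw [sin_sq_eq]
    have a1 : (-β) * u = -(β * u) := by ring
    have a2 : (1 - β) * u = u + -(β * u) := by ring
    have a3 : (-1 - β) * u = -u + -(β * u) := by ring
    rw [a1, a2, a3, e_add, e_add]
    ring
  unfold cc
  simp_rw [e1]
  rw [intervalIntegral.integral_sub (((i1 _).const_mul _).sub ((i1 _).const_mul _)) ((i1 _).const_mul _),
    intervalIntegral.integral_sub ((i1 _).const_mul _) ((i1 _).const_mul _),
    intervalIntegral.integral_const_mul, intervalIntegral.integral_const_mul, intervalIntegral.integral_const_mul,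
    int_e (neg_ne_zero.2 h0), int_e (sub_ne_zero.2 (Ne.symm h1)), int_e (by intro h; apply h2; linarith)]
  have b1 : e (1 - β) = e (-β) := by
    have : (1 : ℝ) - β = ((1 : ℤ) : ℝ) + -β := by push_cast; ring
    rw [this, e_add, e_int, one_mul]
  have b2 : e (-1 - β) = e (-β) := by
    have : (-1 : ℝ) - β = ((-1 : ℤ) : ℝ) + -β := by push_cast; ring
    rw [this, e_add, e_int, one_mul]
  rw [b1, b2]
  have c0 : (β : ℂ) ≠ 0 := by exact_mod_cast h0
  have c1 : (1 : ℂ) - β ≠ 0 := by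
    intro h
    apply h1
    have : (1 : ℂ) = β := sub_eq_zero.1 h
    exact_mod_cast this.symm
  have c2 : (-1 : ℂ) - β ≠ 0 := by
    intro h
    apply h2
    have : (-1 : ℂ) = β := sub_eq_zero.1 h
    exact_mod_cast this.symm
  have c3 : (β : ℂ) ^ 2 - 1 ≠ 0 := by
    have : (β : ℂ) ^ 2 - 1 = (1 - β) * (-1 - β) := by ring
    rw [this]
    exact mul_ne_zero c1 c2
  have c4 : (Real.pi : ℂ) ≠ 0 := by exact_mod_cast Real.pi_ne_zero
  have c5 := Complex.I_ne_zero
  push_cast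
  field_simp
  ring

lemma cc_one (β : ℝ) : ‖cc β‖ ≤ 1 := by
  unfold cc
  refine (intervalIntegral.norm_integral_le_of_norm_le_const (C := 1) fun u _ => ?_).trans (by simp)
  rw [norm_mul, norm_e, mul_one, Complex.norm_real, Real.norm_of_nonneg (by positivity)]
  exact Real.sin_sq_le_one _

lemma cc_two (β : ℝ) (hβ : 2 ≤ |β|) : ‖cc β‖ ≤ 1 / |β| ^ 2 := by
  have h0 : β ≠ 0 := by rintro rfl; norm_num at hβ
  have h1 : β ≠ 1 := by rintro rfl; norm_num at hβ
  have h2 : β ≠ -1 := by rintro rfl; norm_num at hβ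
  rw [cc_eq h0 h1 h2]
  have hb : |β| ^ 2 = β ^ 2 := sq_abs β
  have h4 : 4 ≤ β ^ 2 := by rw [← hb]; nlinarith
  have hE : ‖e (-β) - 1‖ ≤ 2 := (norm_sub_le _ _).trans (by rw [norm_e, norm_one]; norm_num)
  have hp := Real.pi_gt_three
  have n1 : ‖(2 * Real.pi * Complex.I : ℂ)‖ = 2 * Real.pi := by
    rw [norm_mul, norm_mul, Complex.norm_I, Complex.norm_real, Real.norm_of_nonneg Real.pi_pos.le]
    simp
  have n2 : ‖(1 / (2 * β * (β ^ 2 - 1)) : ℂ)‖ = 1 / (2 * |β| * (β ^ 2 - 1)) := by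
    have : (1 / (2 * β * (β ^ 2 - 1)) : ℂ) = ((1 / (2 * β * (β ^ 2 - 1)) : ℝ) : ℂ) := by push_cast; rfl
    rw [this, Complex.norm_real, Real.norm_eq_abs, abs_div, abs_mul, abs_mul, abs_one,
      abs_of_pos (by norm_num : (0:ℝ) < 2), abs_of_pos (by linarith : (0:ℝ) < β ^ 2 - 1)]
  rw [norm_mul, norm_div, n1, n2, div_mul_div_comm, mul_one]
  have hpos : 0 < 2 * |β| * (β ^ 2 - 1) := by
    have : (0:ℝ) < β ^ 2 - 1 := by linarith
    positivity
  rw [div_le_div_iff₀ (by positivity) (by positivity), one_mul, hb]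
  have h5 : (3 / 4) * β ^ 2 ≤ β ^ 2 - 1 := by linarith
  have h6 : 4 * ((3 / 4) * β ^ 2) ≤ 2 * |β| * (β ^ 2 - 1) := by
    have := mul_le_mul (show (4:ℝ) ≤ 2 * |β| by linarith) h5 (by positivity) (by positivity)
    linarith
  have h7 : 3 * β ^ 2 ≤ 2 * |β| * (β ^ 2 - 1) := by linarith
  calc ‖e (-β) - 1‖ * β ^ 2 ≤ 2 * β ^ 2 := mul_le_mul_of_nonneg_right hE (by positivity)
    _ ≤ 2 * Real.pi * (2 * |β| * (β ^ 2 - 1)) := by
      have h8 : 2 * Real.pi * (2 * |β| * (β ^ 2 - 1)) ≥ 6 * (3 * β ^ 2) :=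
        mul_le_mul (by linarith) h7 (by positivity) (by positivity)
      nlinarith

lemma summ (α : ℝ) : Summable fun h : ℤ => cc (α + h) := by
  have h1 : Summable fun h : ℤ => 1 / |(h : ℝ) + α| ^ (2:ℝ) :=
    (Real.summable_one_div_int_add_rpow α 2).2 (by norm_num)
  refine Summable.of_norm_bounded_eventually (g := fun h : ℤ => 1 / |(h : ℝ) + α| ^ (2:ℝ)) h1 ?_
  have hfin : {h : ℤ | ¬ 2 ≤ |α + h|}.Finite := by
    refine (Set.finite_Icc ⌊-α - 2⌋ ⌈-α + 2⌉).subset fun h hh => ?_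
    simp only [Set.mem_ofPred_eq, not_le] at hh
    rw [abs_lt] at hh
    rw [Set.mem_Icc]
    constructor
    · have : (⌊-α - 2⌋ : ℝ) ≤ h := (Int.floor_le _).trans (by linarith)
      exact_mod_cast this
    · have : (h : ℝ) ≤ ⌈-α + 2⌉ := le_trans (by linarith) (Int.le_ceil _)
      exact_mod_cast this
  have hev : ∀ᶠ h : ℤ in cofinite, 2 ≤ |α + h| := hfin
  filter_upwards [hev] with h hh
  have := cc_two _ hh
  rw [add_comm (h : ℝ) α, Real.rpow_two]
  exact this

/-- the function -/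
noncomputable def f0 (α u : ℝ) : ℂ := ((Real.sin (Real.pi * u) ^ 2 : ℝ) : ℂ) * e (-(α * u))

lemma f0_cont (α : ℝ) : Continuous (f0 α) := by
  unfold f0
  have := e_cont
  fun_prop

noncomputable def fC (α : ℝ) : C(AddCircle (1:ℝ), ℂ) :=
  ⟨AddCircle.liftIco 1 0 (f0 α), by
    refine AddCircle.liftIco_continuous ?_ (f0_cont α).continuousOn
    unfold f0
    simp⟩

lemma coeff (α : ℝ) (h : ℤ) : fourierCoeff (fC α) h = cc (α + h) := by
  have h1 : fourierCoeff (fC α) h = fourierCoeff (AddCircle.liftIco 1 0 (f0 α)) h := rfl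
  rw [h1, fourierCoeff_liftIco_eq, fourierCoeffOn_eq_integral]
  unfold cc
  simp only [zero_add, sub_zero, div_one, one_smul]
  refine intervalIntegral.integral_congr fun u _ => ?_
  show (fourier (-h) : C(AddCircle _, ℂ)) (u : AddCircle _) • f0 α u =
    ((Real.sin (Real.pi * u) ^ 2 : ℝ) : ℂ) * e (-((α + h) * u))
  rw [fourier_coe_apply, smul_eq_mul]
  unfold f0
  have e1 : e (-((α + h) * u)) = e (-(α * u)) * e (-(h * u)) := by
    rw [← e_add]
    congr 1
    ring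
  rw [e1]
  have e2 : e (-(h * u)) = Complex.exp (2 * Real.pi * Complex.I * ((-h : ℤ) : ℂ) * u / ((0 + 1 - 0 : ℝ) : ℂ)) := by
    unfold e
    congr 1
    push_cast
    ring
  rw [← e2]
  ring

theorem floor_series : S_FLOOR := by
  refine ⟨cc, cc_one, cc_two, fun α x => ?_⟩
  have hs : Summable (fourierCoeff (fC α)) := by
    have : fourierCoeff (fC α) = fun h : ℤ => cc (α + h) := funext (coeff α)
    rw [this]
    exact summ α
  have ht : Int.fract x ∈ Set.Ico (0:ℝ) (0 + 1) := by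
    rw [zero_add]
    exact ⟨Int.fract_nonneg x, Int.fract_lt_one x⟩
  have h1 := has_pointwise_sum_fourier_series_of_summable hs ((Int.fract x : ℝ) : AddCircle (1:ℝ))
  have h2 : (fC α) ((Int.fract x : ℝ) : AddCircle (1:ℝ)) = f0 α (Int.fract x) := by
    show AddCircle.liftIco 1 0 (f0 α) _ = _
    exact AddCircle.liftIco_coe_apply ht
  rw [h2] at h1
  have h3 := h1.mul_left (e (α * Int.fract x) * e (α * (⌊x⌋ : ℤ)))
  have hx : x = ⌊x⌋ + Int.fract x := (Int.floor_add_fract x).symm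
  have hF : (fun h : ℤ => cc (α + h) * e ((α + h) * x)) = fun i : ℤ =>
      e (α * Int.fract x) * e (α * (⌊x⌋ : ℤ)) * fourierCoeff (⇑(fC α)) i •
        (fourier i : C(AddCircle (1:ℝ), ℂ)) ((Int.fract x : ℝ) : AddCircle (1:ℝ)) := by
    funext h
    rw [coeff, fourier_coe_apply, smul_eq_mul]
    have e2 : Complex.exp (2 * Real.pi * Complex.I * (h : ℂ) * ((Int.fract x : ℝ) : ℂ) / (1:ℝ)) = e (h * Int.fract x) := by
      unfold e
      congr 1
      push_cast
      ring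
    rw [e2]
    have e3 : e ((α + h) * x) = e (α * Int.fract x) * e (α * (⌊x⌋ : ℤ)) * e (h * Int.fract x) := by
      have e4 : e (((h * ⌊x⌋ : ℤ) : ℝ)) = 1 := e_int _
      rw [← e_add, ← e_add, ← mul_one (e (α * Int.fract x + α * (⌊x⌋ : ℤ) + h * Int.fract x)), ← e4, ← e_add]
      congr 1
      push_cast
      conv_lhs => rw [hx]
      ring
    rw [e3]
    ring
  have hV : ((Real.sin (Real.pi * x) ^ 2 : ℝ) : ℂ) * e (α * (⌊x⌋ : ℤ)) =
      e (α * Int.fract x) * e (α * (⌊x⌋ : ℤ)) * f0 α (Int.fract x) := by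
    unfold f0
    have e5 : e (α * Int.fract x) * e (-(α * Int.fract x)) = 1 := by
      rw [← e_add, add_neg_cancel]
      have := e_int 0
      simpa using this
    have e6 : Real.sin (Real.pi * x) ^ 2 = Real.sin (Real.pi * Int.fract x) ^ 2 := by
      conv_lhs => rw [hx]
      rw [mul_add, add_comm, mul_comm Real.pi (⌊x⌋ : ℝ), Real.sin_add_int_mul_pi, mul_pow]
      have : ((-1 : ℝ) ^ ⌊x⌋) ^ 2 = 1 := by
        rw [← zpow_natCast, ← zpow_mul, mul_comm, zpow_mul]
        norm_num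
      rw [this, one_mul]
    rw [e6]
    linear_combination (-((Real.sin (Real.pi * Int.fract x) ^ 2 : ℝ) : ℂ) * e (α * (⌊x⌋ : ℤ))) * e5
  rw [hF, hV]
  exact h3

end Pool.Agent.N141.MWF
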